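import Pool.Agent.N73.SLX.REL

/-!
# SLX-CNT (helper73): number of compatible tuples with given Gram matrix
-/

set_option autoImplicit false
set_option linter.unusedVariables false

open scoped Classical

namespace Pool.Agent.N73.SLX

open Finset Filter Topology
open Pool.Agent.N916.GB (ps sx pt)
open Pool.Agent.N637.SLX

lemma z2_mul_self (x : ZMod 2) : x * x = x := by revert x; decide

lemma z2_two : (2 : ZMod 2) = 0 := rfl

/-- Splitting of the tuples. -/
def eqv (n : ℕ) (U J : Type) : (Fin n → U → ZMod 2) × (Fin n → J → ZMod 2) ≃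
    (Fin n → U ⊕ J → ZMod 2) where
  toFun y a := Sum.elim (y.1 a) (y.2 a)
  invFun y := (fun a v => y a (Sum.inl v), fun a k => y a (Sum.inr k))
  left_inv y := rfl
  right_inv y := by
    funext a q
    cases q <;> rfl

lemma cardeq {α : Type} {i1 i2 : Fintype α} {P Q : α → Prop} {d1 : DecidablePred P}
    {d2 : DecidablePred Q} (h : ∀ a, P a ↔ Q a) :
    (@Finset.filter α P d1 (@univ α i1)).card = (@Finset.filter α Q d2 (@univ α i2)).card := by
  have h1 : i1 = i2 := Subsingleton.elim _ _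
  subst h1
  congr 1
  ext a
  simp [h a]

lemma card_split {n : ℕ} {U J : Type} [Fintype U] [Fintype J] [LinearOrder J]
    (P : (Fin n → U ⊕ J → ZMod 2) → Prop) [DecidablePred P] :
    (univ.filter P).card = ∑ yU : Fin n → U → ZMod 2,
      (univ.filter fun yJ : Fin n → J → ZMod 2 => P (eqv n U J (yU, yJ))).card := by
  rw [Finset.card_filter, ← Equiv.sum_comp (eqv n U J), Fintype.sum_prod_type]
  exact Finset.sum_congr rfl fun yU _ => by rw [Finset.card_filter]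

section

variable {U J : Type} [Fintype U] [Fintype J] [LinearOrder J] {w u e : U ⊕ J → ZMod 2}
  {N : U ⊕ J → U ⊕ J → ZMod 2}

/-- The form of the compatibility condition. -/
lemma cpt_iff {V₀ : ℕ} (h : Stg U J w u e N V₀) (y z : U ⊕ J → ZMod 2) : Cpt N y z ↔
    (∑ k, u (Sum.inr k) * y (Sum.inr k)) * (∑ k, u (Sum.inr k) * z (Sum.inr k)) +
      ∑ k, u (Sum.inr k) * y (Sum.inr k) * z (Sum.inr k) +
      (∑ k, (∑ v, z (Sum.inl v) * N (Sum.inl v) (Sum.inr k)) * y (Sum.inr k) +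
        ∑ k, (∑ v, y (Sum.inl v) * N (Sum.inl v) (Sum.inr k)) * z (Sum.inr k)) = 0 := by
  have hJ : ∀ k l : J, N (Sum.inr l) (Sum.inr k) + N (Sum.inr k) (Sum.inr l) =
      u (Sum.inr k) * u (Sum.inr l) + if k = l then u (Sum.inr k) else 0 := by
    intro k l
    split_ifs with hkl
    · subst hkl
      rw [z2_add_self, z2_mul_self, z2_add_self]
    · have h1 := h.hN (Sum.inr k) (Sum.inr l) (fun h' => hkl (Sum.inr_injective h'))
      rw [h.hw, h.hw] at h1
      linear_combination h1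
  have h1 : ∑ k, ∑ l, y (Sum.inr k) * z (Sum.inr l) *
      (N (Sum.inr l) (Sum.inr k) + N (Sum.inr k) (Sum.inr l)) =
      (∑ k, u (Sum.inr k) * y (Sum.inr k)) * (∑ k, u (Sum.inr k) * z (Sum.inr k)) +
      ∑ k, u (Sum.inr k) * y (Sum.inr k) * z (Sum.inr k) := by
    rw [Finset.sum_mul_sum, ← Finset.sum_add_distrib]
    refine Finset.sum_congr rfl fun k _ => ?_
    have h2 : ∀ l, y (Sum.inr k) * z (Sum.inr l) *
        (N (Sum.inr l) (Sum.inr k) + N (Sum.inr k) (Sum.inr l)) =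
        u (Sum.inr k) * y (Sum.inr k) * (u (Sum.inr l) * z (Sum.inr l)) +
          if k = l then u (Sum.inr k) * y (Sum.inr k) * z (Sum.inr l) else 0 := by
      intro l
      rw [hJ]
      split_ifs <;> ring
    rw [Finset.sum_congr rfl fun l _ => h2 l, Finset.sum_add_distrib, Finset.sum_ite_eq,
      if_pos (Finset.mem_univ _)]
  have h3 : ∑ k, ∑ l, z (Sum.inr k) * y (Sum.inr l) * N (Sum.inr l) (Sum.inr k) =
      ∑ k, ∑ l, y (Sum.inr k) * z (Sum.inr l) * N (Sum.inr k) (Sum.inr l) := by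
    rw [Finset.sum_comm]
    exact Finset.sum_congr rfl fun k _ => Finset.sum_congr rfl fun l _ => by ring
  have h4 : ∑ k, ∑ l, y (Sum.inr k) * z (Sum.inr l) *
      (N (Sum.inr l) (Sum.inr k) + N (Sum.inr k) (Sum.inr l)) =
      ∑ k, ∑ l, (y (Sum.inr k) * z (Sum.inr l) + z (Sum.inr k) * y (Sum.inr l)) *
        N (Sum.inr l) (Sum.inr k) := by
    simp only [mul_add, add_mul, Finset.sum_add_distrib]
    rw [h3]
  have h5 : ∑ k, (y (Sum.inr k) * hh N z k + z (Sum.inr k) * hh N y k) =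
      ∑ k, ∑ l, (y (Sum.inr k) * z (Sum.inr l) + z (Sum.inr k) * y (Sum.inr l)) *
        N (Sum.inr l) (Sum.inr k) +
      (∑ k, (∑ v, z (Sum.inl v) * N (Sum.inl v) (Sum.inr k)) * y (Sum.inr k) +
        ∑ k, (∑ v, y (Sum.inl v) * N (Sum.inl v) (Sum.inr k)) * z (Sum.inr k)) := by
    rw [← Finset.sum_add_distrib, ← Finset.sum_add_distrib]
    refine Finset.sum_congr rfl fun k _ => ?_
    have e1 : ∀ x : U ⊕ J → ZMod 2, hh N x k =
        ∑ v, x (Sum.inl v) * N (Sum.inl v) (Sum.inr k) +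
        x (Sum.inr k) * ∑ v, N (Sum.inr k) (Sum.inl v) +
        ∑ l, x (Sum.inr l) * N (Sum.inr l) (Sum.inr k) +
        x (Sum.inr k) * ∑ l, N (Sum.inr k) (Sum.inr l) := by
      intro x
      rw [hh, Fintype.sum_sum_type, Finset.sum_add_distrib, Finset.sum_add_distrib,
        Finset.mul_sum, Finset.mul_sum]
      ring
    have e2 : ∑ l, (y (Sum.inr k) * z (Sum.inr l) + z (Sum.inr k) * y (Sum.inr l)) *
        N (Sum.inr l) (Sum.inr k) =
        y (Sum.inr k) * ∑ l, z (Sum.inr l) * N (Sum.inr l) (Sum.inr k) +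
        z (Sum.inr k) * ∑ l, y (Sum.inr l) * N (Sum.inr l) (Sum.inr k) := by
      rw [Finset.mul_sum, Finset.mul_sum, ← Finset.sum_add_distrib]
      exact Finset.sum_congr rfl fun l _ => by ring
    rw [e1, e1, e2]
    linear_combination (y (Sum.inr k) * z (Sum.inr k) * ∑ v, N (Sum.inr k) (Sum.inl v) +
      y (Sum.inr k) * z (Sum.inr k) * ∑ l, N (Sum.inr k) (Sum.inr l)) * z2_two
  rw [Cpt, h5, ← h4, h1]

lemma cpt_self (y : U ⊕ J → ZMod 2) : Cpt N y y := by
  rw [Cpt]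
  exact Finset.sum_eq_zero fun k _ => z2_add_self _

lemma cpt_symm {y z : U ⊕ J → ZMod 2} (h : Cpt N y z) : Cpt N z y := by
  rw [Cpt] at h ⊢
  rw [← h]
  exact Finset.sum_congr rfl fun k _ => add_comm _ _

/-- The linear forms at the small primes are independent. -/
lemma indep {V₀ : ℕ} (h : Stg U J w u e N V₀) (b : U → ZMod 2)
    (hb : ∀ k, ∑ v, b v * N (Sum.inr k) (Sum.inl v) = 0) (v : U) : b v = 0 := by
  have h1 : ∀ k v, N (Sum.inr k) (Sum.inl v) =
      w (Sum.inl v) * N (Sum.inl v) (Sum.inr k) + u (Sum.inl v) * u (Sum.inr k) := by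
    intro k v
    have h2 := h.hN (Sum.inl v) (Sum.inr k) (by simp)
    rw [h.hw, one_mul] at h2
    linear_combination h2 - (w (Sum.inl v) * N (Sum.inl v) (Sum.inr k)) * z2_two
  have h3 : ¬ ((∃ v, b v * w (Sum.inl v) ≠ 0) ∨ ∑ v, b v * u (Sum.inl v) ≠ 0) := by
    intro h4
    obtain ⟨k, hk⟩ := h.nd (fun v => b v * w (Sum.inl v)) (∑ v, b v * u (Sum.inl v)) h4
    apply hk
    rw [← hb k, Finset.sum_mul, ← Finset.sum_add_distrib]
    refine Finset.sum_congr rfl fun v _ => ?_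
    rw [h1]
    ring
  push Not at h3
  obtain ⟨h4, h5⟩ := h3
  by_contra hv
  have hw0 : ∀ v, b v ≠ 0 → w (Sum.inl v) = 0 := fun v hv =>
    (mul_eq_zero.1 (h4 v)).resolve_left hv
  obtain ⟨hu1, hun⟩ := h.hv v (hw0 v hv)
  rw [Finset.sum_eq_single v, hu1, mul_one] at h5
  · exact hv h5
  · intro v' _ hne
    by_cases hb' : b v' = 0
    · rw [hb', zero_mul]
    · exact absurd (hun v' (hw0 v' hb')).symm hne
  · intro h6
    exact absurd (Finset.mem_univ _) h6

lemma bf_split (y z : U ⊕ J → ZMod 2) : Bf e y z =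
    (∑ v, e (Sum.inl v) * y (Sum.inl v) + ∑ k, e (Sum.inr k) * y (Sum.inr k)) *
    (∑ v, e (Sum.inl v) * z (Sum.inl v) + ∑ k, e (Sum.inr k) * z (Sum.inr k)) +
    ∑ k, e (Sum.inr k) * y (Sum.inr k) * z (Sum.inr k) +
    ∑ v, e (Sum.inl v) * y (Sum.inl v) * z (Sum.inl v) := by
  rw [Bf, Fintype.sum_sum_type, Fintype.sum_sum_type, Fintype.sum_sum_type]
  ring

/-- The conditions of `S_CNT` for given values at the small primes. -/
def PU (N : U ⊕ J → U ⊕ J → ZMod 2) (e : U ⊕ J → ZMod 2) {n : ℕ} (β : Fin n → Fin n → ZMod 2)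
    (yU : Fin n → U → ZMod 2) (yJ : Fin n → J → ZMod 2) : Prop :=
  (∀ a, Ueq N (eqv n U J (yU, yJ) a)) ∧
    (∀ a b, Cpt N (eqv n U J (yU, yJ) a) (eqv n U J (yU, yJ) b)) ∧
    ∀ a b, a < b → Bf e (eqv n U J (yU, yJ) a) (eqv n U J (yU, yJ) b) = β a b

/-- The conditions of `S_QC`. -/
def QU (n : ℕ) (g : U → J → ZMod 2)
    (c : Fin n → U → ZMod 2) (u e : J → ZMod 2) (κ μ : Fin n → ZMod 2)
    (L1 L2 : Fin n → Fin n → Fin n → J → ZMod 2) (α β : Fin n → Fin n → ZMod 2)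
    (y : Fin n → J → ZMod 2) : Prop :=
  (∀ a v, ∑ k, g v k * y a k = c a v) ∧
    (∀ a b, a < b → (μ a + ∑ k, u k * y a k) * (μ b + ∑ k, u k * y b k) +
      ∑ k, u k * y a k * y b k + ∑ x, ∑ k, L1 a b x k * y x k = α a b) ∧
    (∀ a b, a < b → (κ a + ∑ k, e k * y a k) * (κ b + ∑ k, e k * y b k) +
      ∑ k, e k * y a k * y b k + ∑ x, ∑ k, L2 a b x k * y x k = β a b)

/-- The constants of the linear equations. -/
def cU (N : U ⊕ J → U ⊕ J → ZMod 2) {n : ℕ} (yU : Fin n → U → ZMod 2) (a : Fin n) (v : U) :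
    ZMod 2 :=
  ∑ v', (yU a v' * N (Sum.inl v') (Sum.inl v) + yU a v * N (Sum.inl v) (Sum.inl v')) +
    ∑ k : J, yU a v * N (Sum.inl v) (Sum.inr k)

/-- The linear forms in the compatibility conditions. -/
noncomputable def LU (N : U ⊕ J → U ⊕ J → ZMod 2) {n : ℕ} (yU : Fin n → U → ZMod 2)
    (a b x : Fin n) (k : J) : ZMod 2 :=
  (if x = a then ∑ v, yU b v * N (Sum.inl v) (Sum.inr k) else 0) +
    if x = b then ∑ v, yU a v * N (Sum.inl v) (Sum.inr k) else 0

lemma ueq_iff {n : ℕ} (yU : Fin n → U → ZMod 2) (yJ : Fin n → J → ZMod 2) (a : Fin n) :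
    Ueq N (eqv n U J (yU, yJ) a) ↔
      ∀ v, ∑ k, N (Sum.inr k) (Sum.inl v) * yJ a k = cU N yU a v := by
  rw [Ueq]
  refine forall_congr' fun v => ?_
  rw [Fintype.sum_sum_type]
  have h1 : ∑ v', (eqv n U J (yU, yJ) a (Sum.inl v') * N (Sum.inl v') (Sum.inl v) +
      eqv n U J (yU, yJ) a (Sum.inl v) * N (Sum.inl v) (Sum.inl v')) =
      ∑ v', (yU a v' * N (Sum.inl v') (Sum.inl v) + yU a v * N (Sum.inl v) (Sum.inl v')) := rfl
  have h2 : ∑ k, (eqv n U J (yU, yJ) a (Sum.inr k) * N (Sum.inr k) (Sum.inl v) +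
      eqv n U J (yU, yJ) a (Sum.inl v) * N (Sum.inl v) (Sum.inr k)) =
      ∑ k, N (Sum.inr k) (Sum.inl v) * yJ a k + ∑ k, yU a v * N (Sum.inl v) (Sum.inr k) := by
    rw [← Finset.sum_add_distrib]
    refine Finset.sum_congr rfl fun k _ => ?_
    change yJ a k * _ + yU a v * _ = _
    ring
  rw [h1, h2, cU]
  generalize ∑ k, N (Sum.inr k) (Sum.inl v) * yJ a k = A
  generalize ∑ k, yU a v * N (Sum.inl v) (Sum.inr k) = B
  generalize ∑ v', (yU a v' * N (Sum.inl v') (Sum.inl v) +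
    yU a v * N (Sum.inl v) (Sum.inl v')) = D
  revert A B D
  decide

lemma sum_LU {n : ℕ} (yU : Fin n → U → ZMod 2) (yJ : Fin n → J → ZMod 2) (a b : Fin n) :
    ∑ x, ∑ k, LU N yU a b x k * yJ x k =
      ∑ k, (∑ v, yU b v * N (Sum.inl v) (Sum.inr k)) * yJ a k +
      ∑ k, (∑ v, yU a v * N (Sum.inl v) (Sum.inr k)) * yJ b k := by
  have h1 : ∀ x, ∑ k, LU N yU a b x k * yJ x k =
      (if x = a then ∑ k, (∑ v, yU b v * N (Sum.inl v) (Sum.inr k)) * yJ x k else 0) +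
      if x = b then ∑ k, (∑ v, yU a v * N (Sum.inl v) (Sum.inr k)) * yJ x k else 0 := by
    intro x
    by_cases h2 : x = a <;> by_cases h3 : x = b <;>
      simp [LU, h2, h3, add_mul, Finset.sum_add_distrib]
  rw [Finset.sum_congr rfl fun x _ => h1 x, Finset.sum_add_distrib, Finset.sum_ite_eq',
    Finset.sum_ite_eq', if_pos (Finset.mem_univ _), if_pos (Finset.mem_univ _)]

lemma PU_iff {V₀ : ℕ} (h : Stg U J w u e N V₀) {n : ℕ} (β : Fin n → Fin n → ZMod 2)
    (yU : Fin n → U → ZMod 2) (yJ : Fin n → J → ZMod 2) : PU N e β yU yJ ↔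
    QU n (fun v k => N (Sum.inr k) (Sum.inl v)) (cU N yU)
    (fun k => u (Sum.inr k)) (fun k => e (Sum.inr k))
    (fun a => ∑ v, e (Sum.inl v) * yU a v) (fun _ => 0) (LU N yU)
    (fun _ _ _ _ => 0) (fun _ _ => 0)
    (fun a b => β a b + ∑ v, e (Sum.inl v) * yU a v * yU b v) yJ := by
  refine and_congr (forall_congr' fun a => ueq_iff yU yJ a) (and_congr ?_ ?_)
  · have h2 : (∀ a b, Cpt N (eqv n U J (yU, yJ) a) (eqv n U J (yU, yJ) b)) ↔
        ∀ a b, a < b → Cpt N (eqv n U J (yU, yJ) a) (eqv n U J (yU, yJ) b) := by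
      constructor
      · intro h3 a b _
        exact h3 a b
      · intro h3 a b
        rcases lt_trichotomy a b with h4 | h4 | h4
        · exact h3 a b h4
        · rw [h4]
          exact cpt_self _
        · exact cpt_symm (h3 b a h4)
    rw [h2]
    refine forall_congr' fun a => forall_congr' fun b => forall_congr' fun hab => ?_
    rw [cpt_iff h, sum_LU, zero_add, zero_add]
    exact Iff.rfl
  · refine forall_congr' fun a => forall_congr' fun b => forall_congr' fun hab => ?_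
    rw [bf_split]
    have h3 : ∑ x : Fin n, ∑ k : J, (0 : ZMod 2) * yJ x k = 0 := by simp
    have h4 : (∑ v, e (Sum.inl v) * eqv n U J (yU, yJ) a (Sum.inl v) +
        ∑ k, e (Sum.inr k) * eqv n U J (yU, yJ) a (Sum.inr k)) *
        (∑ v, e (Sum.inl v) * eqv n U J (yU, yJ) b (Sum.inl v) +
        ∑ k, e (Sum.inr k) * eqv n U J (yU, yJ) b (Sum.inr k)) +
        ∑ k, e (Sum.inr k) * eqv n U J (yU, yJ) a (Sum.inr k) * eqv n U J (yU, yJ) b (Sum.inr k) +
        ∑ v, e (Sum.inl v) * eqv n U J (yU, yJ) a (Sum.inl v) * eqv n U J (yU, yJ) b (Sum.inl v) =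
        ((∑ v, e (Sum.inl v) * yU a v + ∑ k, e (Sum.inr k) * yJ a k) *
        (∑ v, e (Sum.inl v) * yU b v + ∑ k, e (Sum.inr k) * yJ b k) +
        ∑ k, e (Sum.inr k) * yJ a k * yJ b k) + ∑ v, e (Sum.inl v) * yU a v * yU b v := rfl
    rw [h4, h3, add_zero]
    beta_reduce
    generalize (∑ v, e (Sum.inl v) * yU a v + ∑ k, e (Sum.inr k) * yJ a k) *
        (∑ v, e (Sum.inl v) * yU b v + ∑ k, e (Sum.inr k) * yJ b k) +
        ∑ k, e (Sum.inr k) * yJ a k * yJ b k = A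
    generalize ∑ v, e (Sum.inl v) * yU a v * yU b v = B
    generalize β a b = D
    revert A B D
    decide

/-- The count for given values at the small primes. -/
lemma fibre (hQC : S_QC) {V₀ : ℕ} (h : Stg U J w u e N V₀) {n : ℕ} (β : Fin n → Fin n → ZMod 2)
    (yU : Fin n → U → ZMod 2) :
    |((univ.filter fun yJ : Fin n → J → ZMod 2 => PU N e β yU yJ).card : ℝ) -
      2 ^ (n * Fintype.card J) / (2 ^ (n * Fintype.card U) * 2 ^ (n * (n - 1)))| ≤
    2 ^ (n * Fintype.card J) * 2 ^ (2 * n) / 2 ^ (V₀ * (Fintype.card U + 1)) := by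
  have h1 := hQC n (V₀ * (Fintype.card U + 1)) J U (fun v k => N (Sum.inr k) (Sum.inl v))
    (cU N yU) (fun k => u (Sum.inr k)) (fun k => e (Sum.inr k))
    (fun a => ∑ v, e (Sum.inl v) * yU a v) (fun _ => 0) (LU N yU)
    (fun _ _ _ _ => 0) (fun _ _ => 0)
    (fun a b => β a b + ∑ v, e (Sum.inl v) * yU a v * yU b v)
    (indep h) h.c1 h.c2
  refine le_of_eq_of_le ?_ h1
  congr 3
  exact cardeq (PU_iff h β yU)

end

theorem t_CNT : S_QC → S_CNT := by
  intro hQC n ε hε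
  obtain ⟨s, hs⟩ : ∃ s : ℕ, (2 : ℝ) ^ (2 * n) / 2 ^ s ≤ ε := by
    obtain ⟨s, hs⟩ := pow_unbounded_of_one_lt ((2 : ℝ) ^ (2 * n) / ε) (one_lt_two)
    refine ⟨s, ?_⟩
    rw [div_le_iff₀ (by positivity)]
    rw [div_lt_iff₀ hε] at hs
    linarith
  refine ⟨n + s, fun U J _ _ _ w u e N h β => ?_⟩
  refine le_of_eq_of_le (congrArg (fun x : ℕ => |(x : ℝ) - 2 ^ (n * Fintype.card J) /
    2 ^ (n * (n - 1))|) (?_ : _ = ∑ yU : Fin n → U → ZMod 2,
      (univ.filter fun yJ : Fin n → J → ZMod 2 => PU N e β yU yJ).card)) ?_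
  · rw [card_split]
    exact Finset.sum_congr rfl fun yU _ => cardeq fun yJ => Iff.rfl
  rw [Nat.cast_sum]
  have h1 : ((2 : ℝ) ^ (n * Fintype.card J) / 2 ^ (n * (n - 1))) =
      ∑ _yU : Fin n → U → ZMod 2, (2 : ℝ) ^ (n * Fintype.card J) /
        (2 ^ (n * Fintype.card U) * 2 ^ (n * (n - 1))) := by
    rw [Finset.sum_const, Finset.card_univ, Fintype.card_fun, Fintype.card_fun, Fintype.card_fin,
      ZMod.card, ← pow_mul, nsmul_eq_mul, mul_comm (Fintype.card U) n]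
    push_cast
    field_simp
  rw [h1, ← Finset.sum_sub_distrib]
  refine (Finset.abs_sum_le_sum_abs _ _).trans ?_
  refine (Finset.sum_le_sum fun yU _ => fibre hQC h β yU).trans ?_
  rw [Finset.sum_const, Finset.card_univ, Fintype.card_fun, Fintype.card_fun, Fintype.card_fin,
    ZMod.card, ← pow_mul, nsmul_eq_mul, mul_comm (Fintype.card U) n]
  push_cast
  have h2 : (2 : ℝ) ^ (n * Fintype.card U + s) ≤ 2 ^ ((n + s) * (Fintype.card U + 1)) := by
    refine pow_le_pow_right₀ one_le_two ?_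
    nlinarith [Nat.zero_le (s * Fintype.card U)]
  have h3 : (2 : ℝ) ^ (n * Fintype.card U) *
      (2 ^ (n * Fintype.card J) * 2 ^ (2 * n) / 2 ^ ((n + s) * (Fintype.card U + 1))) ≤
      (2 : ℝ) ^ (n * Fintype.card U) *
      (2 ^ (n * Fintype.card J) * 2 ^ (2 * n) / 2 ^ (n * Fintype.card U + s)) := by
    gcongr
  refine h3.trans ?_
  have h4 : (2 : ℝ) ^ (n * Fintype.card U) *
      (2 ^ (n * Fintype.card J) * 2 ^ (2 * n) / 2 ^ (n * Fintype.card U + s)) =
      2 ^ (2 * n) / 2 ^ s * 2 ^ (n * Fintype.card J) := by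
    rw [pow_add]
    field_simp
  rw [h4]
  gcongr

end Pool.Agent.N73.SLX
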