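import Pool.Agent.N637.SLX.Stm

/-!
# SLX-REL (helper73): elements of the left kernel constant on the large primes
-/

set_option autoImplicit false
set_option linter.unusedVariables false

open scoped Classical

namespace Pool.Agent.N73.SLX

open Finset Filter Topology
open Pool.Agent.N916.GB (ps sx pt)
open Pool.Agent.N637.SLX

lemma z2_add_self (x : ZMod 2) : x + x = 0 := CharTwo.add_self_eq_zero x

lemma z2_eq_of_add {x y : ZMod 2} (h : x + y = 0) : x = y := CharTwo.add_eq_zero.1 h

lemma pt_inl_left {U J : Type} (F : U ⊕ J → U ⊕ J → ZMod 2) (δ : J → J → ZMod 2) (v : U)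
    (q : U ⊕ J) : pt F δ (Sum.inl v) q = F (Sum.inl v) q := by
  cases q <;> rfl

lemma pt_inl_right {U J : Type} (F : U ⊕ J → U ⊕ J → ZMod 2) (δ : J → J → ZMod 2) (v : U)
    (q : U ⊕ J) : pt F δ q (Sum.inl v) = F q (Sum.inl v) := by
  cases q <;> rfl

lemma pt_inr {U J : Type} (F : U ⊕ J → U ⊕ J → ZMod 2) (δ : J → J → ZMod 2) (k l : J) :
    pt F δ (Sum.inr k) (Sum.inr l) = F (Sum.inr k) (Sum.inr l) + δ k l := rfl

lemma sx_symm {J : Type} [Fintype J] [LinearOrder J] (σ : ps J → ZMod 2) (k l : J) :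
    sx σ k l = sx σ l k := by
  have hm : ∀ a b : J, (a, b) ∈ ps J ↔ a < b := fun a b => by
    rw [ps, Finset.mem_filter]
    simp
  rcases lt_trichotomy k l with h | h | h
  · have h1 : (k, l) ∈ ps J := (hm k l).2 h
    have h2 : ¬ (l, k) ∈ ps J := fun h' => lt_asymm h ((hm l k).1 h')
    rw [sx, sx, dif_pos h1, dif_neg h2, dif_pos h1]
  · rw [h]
  · have h1 : (l, k) ∈ ps J := (hm l k).2 h
    have h2 : ¬ (k, l) ∈ ps J := fun h' => lt_asymm h ((hm k l).1 h')
    rw [sx, sx, dif_neg h2, dif_pos h1, dif_pos h1]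

/-- Linear combinations of elements of the left kernel. -/
lemma isLk_lin {V : Type} [Fintype V] {N : V → V → ZMod 2} {n : ℕ} {y : Fin n → V → ZMod 2}
    {w : V → ZMod 2} (hy : ∀ a, IsLk N (y a)) (hw : IsLk N w) (c : Fin n → ZMod 2) (d : ZMod 2) :
    IsLk N (fun p => ∑ a, c a * y a p + d * w p) := by
  intro p
  have h1 : ∀ q, ((∑ a, c a * y a q + d * w q) * N q p + (∑ a, c a * y a p + d * w p) * N p q) =
      ∑ a, c a * (y a q * N q p + y a p * N p q) + d * (w q * N q p + w p * N p q) := by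
    intro q
    have h2 : ∑ a, c a * (y a q * N q p + y a p * N p q) =
        (∑ a, c a * y a q) * N q p + (∑ a, c a * y a p) * N p q := by
      rw [Finset.sum_mul, Finset.sum_mul, ← Finset.sum_add_distrib]
      exact Finset.sum_congr rfl fun a _ => by ring
    rw [h2]
    ring
  rw [Finset.sum_congr rfl fun q _ => h1 q, Finset.sum_add_distrib, Finset.sum_comm,
    ← Finset.mul_sum, hw p, mul_zero, add_zero]
  refine Finset.sum_eq_zero fun a _ => ?_
  rw [← Finset.mul_sum, hy a p, mul_zero]

section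

variable {U J : Type} [Fintype U] [Fintype J] [LinearOrder J] {w u e : U ⊕ J → ZMod 2}
  {N : U ⊕ J → U ⊕ J → ZMod 2}

/-- The vector `w` is in the left kernel. -/
lemma isLk_w {V₀ : ℕ} (h : Stg U J w u e N V₀) {δ : J → J → ZMod 2} (hδ : ∀ k l, δ k l = δ l k) :
    IsLk (pt N δ) w := by
  intro p
  have h1 : ∀ q, q ≠ p → w q * pt N δ q p + w p * pt N δ p q = u q * u p := by
    intro q hq
    rcases q with v | l
    · rw [pt_inl_left, pt_inl_right]
      exact h.hN _ _ hq
    · rcases p with v | k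
      · rw [pt_inl_left, pt_inl_right]
        exact h.hN _ _ hq
      · rw [pt_inr, pt_inr, ← h.hN _ _ hq, h.hw, h.hw, hδ l k]
        linear_combination z2_add_self (δ k l)
  have h2 : ∑ q, (w q * pt N δ q p + w p * pt N δ p q) = ∑ q ∈ univ.erase p, u q * u p := by
    rw [← Finset.sum_erase_add univ _ (Finset.mem_univ p), z2_add_self, add_zero]
    exact Finset.sum_congr rfl fun q hq => h1 q (Finset.ne_of_mem_erase hq)
  have h3 : ∑ q ∈ univ.erase p, u q * u p + u p * u p = u p := by
    rw [Finset.sum_erase_add univ (fun q => u q * u p) (Finset.mem_univ p), ← Finset.sum_mul, h.hu,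
      one_mul]
  have h4 : ∀ x : ZMod 2, x * x = x := by decide
  rw [h2]
  rw [h4] at h3
  linear_combination h3

lemma isLk_iff (σ : ps J → ZMod 2) (y : U ⊕ J → ZMod 2) : IsLk (pt N (sx σ)) y ↔
    Ueq N y ∧ ∀ k, ∑ l, (y (Sum.inr l) + y (Sum.inr k)) * sx σ l k = hh N y k := by
  rw [IsLk, Sum.forall]
  refine and_congr (forall_congr' fun v => ?_) (forall_congr' fun k => ?_)
  · simp only [pt_inl_left, pt_inl_right]
  · have h1 : ∑ q, (y q * pt N (sx σ) q (Sum.inr k) + y (Sum.inr k) * pt N (sx σ) (Sum.inr k) q) =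
        hh N y k + ∑ l, (y (Sum.inr l) + y (Sum.inr k)) * sx σ l k := by
      rw [hh, Fintype.sum_sum_type, Fintype.sum_sum_type, add_assoc, ← Finset.sum_add_distrib]
      simp only [pt_inl_left, pt_inl_right, pt_inr]
      congr 1
      refine Finset.sum_congr rfl fun l _ => ?_
      rw [sx_symm σ k l]
      ring
    rw [h1, CharTwo.add_eq_zero]
    exact eq_comm

end

theorem t_REL : S_REL := by
  intro U J _ _ _ w u e N h
  obtain ⟨k0⟩ : Nonempty J := by
    have h1 := h.c1
    have h2 : 0 < (univ.filter fun k : J => u (Sum.inr k) = 1 ∧ e (Sum.inr k) = 0).card := by omega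
    obtain ⟨k, _⟩ := Finset.card_pos.1 h2
    exact ⟨k⟩
  refine ⟨fun δ hδ => ⟨?_, ⟨isLk_w h hδ, fun z hz => h.rad δ hδ z hz⟩, ?_⟩, ?_, ?_⟩
  · intro h0
    have h1 := h.hw k0
    rw [h0] at h1
    exact zero_ne_one h1
  · intro n y hy hI c d hc
    obtain ⟨z, hz⟩ : ∃ z : U ⊕ J → ZMod 2, z = fun p => ∑ a, c a * y a p + d * w p := ⟨_, rfl⟩
    have hzL : IsLk (pt N δ) z := by
      rw [hz]
      exact isLk_lin hy (isLk_w h hδ) c d
    have hzJ : ∀ k, z (Sum.inr k) = 0 := by
      intro k
      rw [hz]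
      have h1 := hc k
      beta_reduce at h1 ⊢
      rw [h1, h.hw, mul_one, z2_add_self]
    have hzU : ∀ v, z (Sum.inl v) = 0 := by
      by_contra hcon
      push Not at hcon
      obtain ⟨k, hk⟩ := h.nd (fun v => z (Sum.inl v)) 0 (Or.inl hcon)
      apply hk
      have h1 := hzL (Sum.inr k)
      simp only [hzJ, zero_mul, add_zero, Fintype.sum_sum_type, pt_inl_left,
        Finset.sum_const_zero] at h1
      simp only [zero_mul, add_zero]
      exact h1
    refine hI c d fun p => ?_
    have h1 : z p = 0 := by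
      rcases p with v | k
      · exact hzU v
      · exact hzJ k
    rw [hz] at h1
    exact z2_eq_of_add h1
  · intro n y hS c d hc
    have h1 : ∀ k, ∑ a, c a * y a (Sum.inr k) = d := by
      intro k
      rw [hc, h.hw, mul_one]
    have hd : d = 0 := by
      obtain ⟨k, hk⟩ := hS (fun _ => 0)
      rw [← h1 k]
      refine Finset.sum_eq_zero fun a _ => ?_
      have := hk a
      beta_reduce at this
      rw [this, mul_zero]
    intro a0
    obtain ⟨k, hk⟩ := hS (fun a => if a = a0 then 1 else 0)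
    have h2 := h1 k
    rw [hd, Finset.sum_eq_single a0] at h2
    · have := hk a0
      beta_reduce at this
      rwa [this, if_pos rfl, mul_one] at h2
    · intro a _ ha
      have := hk a
      beta_reduce at this
      rw [this, if_neg ha, mul_zero]
    · intro h3
      exact absurd (Finset.mem_univ _) h3
  · intro n y
    by_cases hU : ∀ a, Ueq N (y a)
    · rw [if_pos hU, Sol]
      congr 1
      refine Finset.filter_congr fun σ _ => ?_
      refine forall_congr' fun a => ?_
      rw [isLk_iff]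
      exact ⟨fun h1 => h1.2, fun h1 => ⟨hU a, h1⟩⟩
    · rw [if_neg hU, Finset.card_eq_zero, Finset.filter_eq_empty_iff]
      intro σ _ h1
      exact hU fun a => ((isLk_iff σ (y a)).1 (h1 a)).1

end Pool.Agent.N73.SLX
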